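import Mathlib

set_option autoImplicit false

namespace Pool.Agent.Q148.Span

open Set
open scoped ENNReal

/-- `m(C) = inf {d(x,y) : (x,y) ∈ C}`, with values in `[0,∞]`. -/
noncomputable def gap {X : Type} [MetricSpace X] (C : Set (X × X)) : ℝ≥0∞ :=
  ⨅ p ∈ C, edist p.1 p.2

/-- The surjective span `σ*(X)`: the supremum of `m(C)` over the connected `C ⊆ X × X` with
`π₁(C) = π₂(C) = X`. -/
noncomputable def surjSpan (X : Type) [MetricSpace X] : ℝ≥0∞ :=
  ⨆ (C : Set (X × X)) (_ : IsConnected C) (_ : Prod.fst '' C = univ ∧ Prod.snd '' C = univ),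
    gap C

/-- The surjective semi-span `σ₀*(X)`: the supremum of `m(C)` over the connected `C ⊆ X × X` with
`π₁(C) = X` or `π₂(C) = X`. -/
noncomputable def surjSemispan (X : Type) [MetricSpace X] : ℝ≥0∞ :=
  ⨆ (C : Set (X × X)) (_ : IsConnected C) (_ : Prod.fst '' C = univ ∨ Prod.snd '' C = univ),
    gap C

end Pool.Agent.Q148.Span
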