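import Pool.Agent.Q148.Span.Defs

set_option autoImplicit false

namespace Pool.Agent.Q148.Span

open Set Metric
open scoped ENNReal

/-- A copy of `X`, to carry another metric. -/
structure Wrap (X : Type) where
  out : X

section

variable {X : Type} [MetricSpace X]

/-- The modified distance `min (L ρ) (1 + β)`. -/
noncomputable def newDist (L : ℝ) (β : X → X → ℝ) (p q : X) : ℝ := min (L * dist p q) (1 + β p q)

theorem newDist_triangle {L δ : ℝ} (hL : 1 ≤ L) (hδ : δ ≤ 1) {β : X → X → ℝ}
    (h0 : ∀ p q, 0 ≤ β p q) (h1 : ∀ p q, β p q ≤ δ) (hs : ∀ p q, β p q = β q p)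
    (hlip : ∀ p q r, β p r ≤ β q r + dist p q) (p q r : X) :
    newDist L β p r ≤ newDist L β p q + newDist L β q r := by
  unfold newDist
  have hpq := h0 p q
  have hqr := h0 q r
  have h1pr := h1 p r
  have t := dist_triangle p q r
  have dpq : 0 ≤ dist p q := dist_nonneg
  have dqr : 0 ≤ dist q r := dist_nonneg
  have l1 := hlip p q r
  have l2 : β p r ≤ β p q + dist q r := by
    have := hlip r q p
    rw [hs r p, hs q p, dist_comm r q] at this
    exact this
  rcases min_choice (L * dist p q) (1 + β p q) with ha | ha <;>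
  rcases min_choice (L * dist q r) (1 + β q r) with hb | hb <;> rw [ha, hb]
  · refine (min_le_left _ _).trans ?_
    nlinarith
  · refine (min_le_right _ _).trans ?_
    nlinarith
  · refine (min_le_right _ _).trans ?_
    nlinarith
  · refine (min_le_right _ _).trans ?_
    linarith

/-- If a compact metrizable space `X` has a closed connected `C ⊆ X × X` with `π₁(C) = X`,
`π₂(C) ≠ X`, disjoint from its transpose, then some compatible metric has `σ* < σ₀*`. -/
theorem exists_metric [CompactSpace X] (C : Set (X × X)) (hC : IsClosed C)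
    (hconn : IsConnected C) (h1 : Prod.fst '' C = univ) (h2 : Prod.snd '' C ≠ univ)
    (hdisj : ∀ x y, (x, y) ∈ C → (y, x) ∉ C) :
    ∃ (Y : Type) (_ : MetricSpace Y) (_ : X ≃ₜ Y), surjSpan Y < surjSemispan Y := by
  classical
  have hCc : IsCompact C := hC.isCompact
  -- the transpose
  set D : Set (X × X) := Prod.swap ⁻¹' C with hD
  have hDcl : IsClosed D := hC.preimage continuous_swap
  have hDc : IsCompact D := hDcl.isCompact
  have hne : C.Nonempty := hconn.nonempty
  have hDne : D.Nonempty := by
    obtain ⟨⟨x, y⟩, h⟩ := hne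
    exact ⟨(y, x), h⟩
  have hCD : Disjoint C D := by
    rw [Set.disjoint_left]
    rintro ⟨x, y⟩ hx hy
    exact hdisj x y hx hy
  -- separation of C from D
  obtain ⟨δ₁, hδ₁, hsep₁⟩ : ∃ δ > 0, ∀ p ∈ C, ∀ q ∈ D, δ ≤ dist p q := by
    obtain ⟨p, hp, hpm⟩ := hCc.exists_isMinOn hne (continuous_infDist_pt D).continuousOn
    refine ⟨infDist p D, ?_, fun p' hp' q hq => (hpm hp').trans (infDist_le_dist_of_mem hq)⟩
    exact (hDcl.notMem_iff_infDist_pos hDne).1 (Set.disjoint_left.1 hCD hp)
  -- separation of C from the diagonal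
  obtain ⟨δ₂, hδ₂, hsep₂⟩ : ∃ δ > 0, ∀ p ∈ C, δ ≤ dist p.1 p.2 := by
    obtain ⟨p, hp, hpm⟩ := hCc.exists_isMinOn hne
      (continuous_dist (α := X)).continuousOn
    refine ⟨dist p.1 p.2, ?_, fun p' hp' => hpm hp'⟩
    rw [gt_iff_lt, dist_pos]
    rintro h
    have : (p.1, p.2) ∈ C := hp
    have h' : (p.2, p.1) ∈ C := by rw [← h] at this ⊢; exact this
    exact hdisj _ _ hp h'
  -- a point outside the second projection
  obtain ⟨y₀, hy₀⟩ : ∃ y₀, y₀ ∉ Prod.snd '' C := by
    by_contra h
    push Not at h
    exact h2 (eq_univ_of_forall h)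
  obtain ⟨δ₃, hδ₃, hsep₃⟩ : ∃ δ > 0, ∀ p ∈ C, δ ≤ dist p.2 y₀ := by
    obtain ⟨p, hp, hpm⟩ := hCc.exists_isMinOn hne
      (f := fun p : X × X => dist p.2 y₀) (by fun_prop)
    refine ⟨dist p.2 y₀, ?_, fun p' hp' => hpm hp'⟩
    rw [gt_iff_lt, dist_pos]
    rintro rfl
    exact hy₀ ⟨p, hp, rfl⟩
  obtain ⟨δ, hδ0, hδ1, hδa, hδc⟩ : ∃ δ : ℝ, 0 < δ ∧ δ ≤ 1 ∧ δ < δ₁ ∧ δ < δ₃ := by
    refine ⟨min 1 (min δ₁ δ₃) / 2, by positivity, ?_, ?_, ?_⟩
    · have := min_le_left 1 (min δ₁ δ₃); linarith
    · have h := (min_le_right 1 (min δ₁ δ₃)).trans (min_le_left _ _)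
      linarith
    · have h := (min_le_right 1 (min δ₁ δ₃)).trans (min_le_right _ _)
      linarith
  obtain ⟨L, hL1, hL2⟩ : ∃ L : ℝ, 1 ≤ L ∧ 2 ≤ L * δ₂ := by
    refine ⟨max 1 (2 / δ₂), le_max_left _ _, ?_⟩
    calc (2 : ℝ) = 2 / δ₂ * δ₂ := by field_simp
      _ ≤ _ := by gcongr; exact le_max_right _ _
  let β : X → X → ℝ := fun p q => max 0 (δ - infDist (p, q) (C ∪ D))
  have hβ0 : ∀ p q, 0 ≤ β p q := fun p q => le_max_left _ _
  have hβ1 : ∀ p q, β p q ≤ δ := fun p q => max_le hδ0.le (by
    have := infDist_nonneg (x := (p, q)) (s := C ∪ D); linarith)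
  have hswap : ∀ p q : X, infDist (p, q) (C ∪ D) = infDist (q, p) (C ∪ D) := by
    intro p q
    have key : ∀ p q : X, infDist (p, q) (C ∪ D) ≤ infDist (q, p) (C ∪ D) := by
      intro p q
      have hne' : (C ∪ D).Nonempty := hne.mono subset_union_left
      refine (le_infDist hne').2 ?_
      rintro ⟨a, b⟩ hab
      have : (b, a) ∈ C ∪ D := by
        rcases hab with h | h
        · right; exact h
        · left; exact h
      refine (infDist_le_dist_of_mem this).trans ?_
      rw [Prod.dist_eq, Prod.dist_eq, max_comm]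
    exact le_antisymm (key p q) (key q p)
  have hβs : ∀ p q, β p q = β q p := fun p q => by simp only [β, hswap p q]
  have hβl : ∀ p q r, β p r ≤ β q r + dist p q := by
    intro p q r
    have h := infDist_le_infDist_add_dist (s := C ∪ D) (x := (q, r)) (y := (p, r))
    have hd : dist ((q, r) : X × X) (p, r) = dist p q := by
      rw [Prod.dist_eq]
      simp [dist_comm]
    rw [hd] at h
    refine max_le ?_ ?_
    · have := hβ0 q r; have := dist_nonneg (x := p) (y := q); linarith
    · have : δ - infDist (q, r) (C ∪ D) ≤ β q r := le_max_right _ _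
      linarith
  -- the new metric space
  let m : MetricSpace (Wrap X) :=
    { dist := fun p q => newDist L β p.out q.out
      dist_self := fun p => by
        simp only [newDist, dist_self, mul_zero]
        exact min_eq_left (by have := hβ0 p.out p.out; linarith)
      dist_comm := fun p q => by
        simp only [newDist, dist_comm, hβs p.out q.out]
      dist_triangle := fun p q r => newDist_triangle hL1 hδ1 hβ0 hβ1 hβs hβl _ _ _
      eq_of_dist_eq_zero := fun {p q} h => by
        have h' : min (L * dist p.out q.out) (1 + β p.out q.out) = 0 := h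
        have hb := hβ0 p.out q.out
        rcases min_choice (L * dist p.out q.out) (1 + β p.out q.out) with h3 | h3
        · rw [h3] at h'
          have hL : L ≠ 0 := by linarith
          have : dist p.out q.out = 0 := (mul_eq_zero.1 h').resolve_left hL
          have := eq_of_dist_eq_zero this
          cases p; cases q; simp_all
        · rw [h3] at h'; linarith }
  have hdist : ∀ p q : Wrap X, dist p q = min (L * dist p.out q.out) (1 + β p.out q.out) :=
    fun p q => rfl
  have hcont : Continuous (Wrap.mk : X → Wrap X) := by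
    refine (LipschitzWith.of_dist_le_mul (K := L.toNNReal) fun p q => ?_).continuous
    rw [hdist, Real.coe_toNNReal _ (by linarith)]
    exact min_le_left _ _
  let eqv : X ≃ Wrap X := ⟨Wrap.mk, Wrap.out, fun _ => rfl, fun _ => rfl⟩
  let e : X ≃ₜ Wrap X := Continuous.homeoOfEquivCompactToT2 (f := eqv) hcont
  have hout : Continuous (Wrap.out : Wrap X → X) := e.symm.continuous
  refine ⟨Wrap X, m, e, ?_⟩
  -- lower bound for the semi-span
  have hlow : ENNReal.ofReal (1 + δ) ≤ surjSemispan (Wrap X) := by
    unfold surjSemispan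
    let F : X × X → Wrap X × Wrap X := Prod.map Wrap.mk Wrap.mk
    have hF : Continuous F := hcont.prodMap hcont
    have hF1 : Prod.fst '' (F '' C) = univ := by
      rw [eq_univ_iff_forall]
      rintro ⟨x⟩
      obtain ⟨p, hp, rfl⟩ : x ∈ Prod.fst '' C := by rw [h1]; trivial
      exact ⟨F p, mem_image_of_mem _ hp, rfl⟩
    refine le_trans ?_ (le_iSup_of_le (F '' C) (le_iSup_of_le (hconn.image _ hF.continuousOn)
      (le_iSup_of_le (Or.inl hF1) le_rfl)))
    unfold gap
    refine le_iInf₂ ?_
    rintro _ ⟨p, hp, rfl⟩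
    rw [edist_dist]
    refine ENNReal.ofReal_le_ofReal ?_
    rw [hdist]
    have hb : β p.1 p.2 = δ := by
      have : infDist p (C ∪ D) = 0 := infDist_zero_of_mem (Or.inl hp)
      simp only [β, Prod.mk.eta, this, sub_zero]
      exact max_eq_right hδ0.le
    have h2' := hsep₂ p hp
    simp only [F, Prod.map_fst, Prod.map_snd, hb]
    refine le_min ?_ le_rfl
    have : L * δ₂ ≤ L * dist p.1 p.2 := by gcongr
    linarith
  -- upper bound for the span
  have hup : surjSpan (Wrap X) ≤ ENNReal.ofReal (1 + δ / 2) := by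
    unfold surjSpan
    refine iSup_le fun E => iSup_le fun hE => iSup_le fun hp => ?_
    by_contra hcon
    push Not at hcon
    have hgap : ∀ p ∈ E, 1 + δ / 2 < dist p.1 p.2 := by
      intro p hp
      have h3 : gap E ≤ edist p.1 p.2 := iInf₂_le p hp
      have h4 := lt_of_lt_of_le hcon h3
      rw [edist_dist] at h4
      exact (ENNReal.ofReal_lt_ofReal_iff_of_nonneg (by positivity)).1 h4
    have hnear : ∀ p ∈ E, infDist (p.1.out, p.2.out) (C ∪ D) ≤ δ / 2 := by
      intro p hp
      have h5 := hgap p hp
      rw [hdist] at h5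
      have h6 := lt_of_lt_of_le h5 (min_le_right _ _)
      have h7 : δ / 2 < β p.1.out p.2.out := by linarith
      simp only [β] at h7
      rcases lt_max_iff.1 h7 with h8 | h8
      · linarith
      · linarith
    let U : Set (Wrap X × Wrap X) := {p | infDist (p.1.out, p.2.out) C ≤ δ / 2}
    let V : Set (Wrap X × Wrap X) := {p | infDist (p.1.out, p.2.out) D ≤ δ / 2}
    have hpair : Continuous fun p : Wrap X × Wrap X => (p.1.out, p.2.out) :=
      (hout.comp continuous_fst).prodMk (hout.comp continuous_snd)
    have hU : IsClosed U := isClosed_le ((continuous_infDist_pt C).comp hpair) continuous_const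
    have hV : IsClosed V := isClosed_le ((continuous_infDist_pt D).comp hpair) continuous_const
    have hUV : E ⊆ U ∪ V := by
      intro p hp
      have h9 := hnear p hp
      rcases le_total (infDist (p.1.out, p.2.out) C) (infDist (p.1.out, p.2.out) D) with h | h
      · left
        show infDist (p.1.out, p.2.out) C ≤ δ / 2
        refine le_trans ?_ h9
        have hne' : (C ∪ D).Nonempty := hne.mono subset_union_left
        refine (le_infDist hne').2 fun q hq => ?_
        rcases hq with hq | hq
        · exact infDist_le_dist_of_mem hq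
        · exact h.trans (infDist_le_dist_of_mem hq)
      · right
        show infDist (p.1.out, p.2.out) D ≤ δ / 2
        refine le_trans ?_ h9
        have hne' : (C ∪ D).Nonempty := hne.mono subset_union_left
        refine (le_infDist hne').2 fun q hq => ?_
        rcases hq with hq | hq
        · exact h.trans (infDist_le_dist_of_mem hq)
        · exact infDist_le_dist_of_mem hq
    have hinter : U ∩ V = ∅ := by
      rw [eq_empty_iff_forall_notMem]
      rintro p ⟨hpU, hpV⟩
      have hpU' : infDist (p.1.out, p.2.out) C ≤ δ / 2 := hpU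
      have hpV' : infDist (p.1.out, p.2.out) D ≤ δ / 2 := hpV
      obtain ⟨a, ha, ha'⟩ := hCc.exists_infDist_eq_dist hne (p.1.out, p.2.out)
      obtain ⟨b, hb, hb'⟩ := hDc.exists_infDist_eq_dist hDne (p.1.out, p.2.out)
      have h10 := hsep₁ a ha b hb
      have h11 : dist a b ≤ dist (p.1.out, p.2.out) a + dist (p.1.out, p.2.out) b := by
        rw [dist_comm (p.1.out, p.2.out) a]; exact dist_triangle _ _ _
      rw [← ha', ← hb'] at h11
      linarith
    have hcase : E ⊆ U ∨ E ⊆ V := by
      have := isPreconnected_iff_subset_of_disjoint_closed.1 hE.isPreconnected U V hU hV hUV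
        (by rw [hinter, inter_empty])
      exact this
    rcases hcase with hEU | hEV
    · -- second projection
      obtain ⟨p, hpE, hpy⟩ : (⟨y₀⟩ : Wrap X) ∈ Prod.snd '' E := by rw [hp.2]; trivial
      have hpU : infDist (p.1.out, p.2.out) C ≤ δ / 2 := hEU hpE
      obtain ⟨a, ha, ha'⟩ := hCc.exists_infDist_eq_dist hne (p.1.out, p.2.out)
      have h12 := hsep₃ a ha
      have h13 : dist y₀ a.2 ≤ dist (p.1.out, p.2.out) a := by
        rw [Prod.dist_eq]
        have : p.2.out = y₀ := by rw [hpy]
        simp only [this]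
        exact le_max_right _ _
      rw [dist_comm] at h12
      linarith
    · obtain ⟨p, hpE, hpy⟩ : (⟨y₀⟩ : Wrap X) ∈ Prod.fst '' E := by rw [hp.1]; trivial
      have hpV : infDist (p.1.out, p.2.out) D ≤ δ / 2 := hEV hpE
      obtain ⟨a, ha, ha'⟩ := hDc.exists_infDist_eq_dist hDne (p.1.out, p.2.out)
      have h12 := hsep₃ a.swap ha
      have h13 : dist y₀ a.1 ≤ dist (p.1.out, p.2.out) a := by
        rw [Prod.dist_eq]
        have : p.1.out = y₀ := by rw [hpy]
        simp only [this]
        exact le_max_left _ _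
      rw [dist_comm] at h12
      simp only [Prod.snd_swap] at h12
      linarith
  refine lt_of_le_of_lt hup (lt_of_lt_of_le ?_ hlow)
  exact (ENNReal.ofReal_lt_ofReal_iff (by positivity)).2 (by linarith)

end

end Pool.Agent.Q148.Span
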