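import Pool.Agent.Q148.Span.Remetric

set_option autoImplicit false

namespace Pool.Agent.Q148.Span

open Set Metric
open scoped ENNReal

/-- `T` is the union of three arcs which share one common endpoint and are otherwise pairwise
disjoint (used for Hausdorff `T`). -/
def IsSimpleTriod (T : Type) [TopologicalSpace T] : Prop :=
  ∃ γ : Fin 3 → Icc (0 : ℝ) 1 → T, (∀ i, Continuous (γ i) ∧ Function.Injective (γ i)) ∧
    (∀ i j, γ i 0 = γ j 0) ∧ (∀ i j s t, i ≠ j → γ i s = γ j t → s = 0 ∧ t = 0) ∧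
    ∀ x, ∃ i s, γ i s = x

theorem IsSimpleTriod.of_homeomorph {T Y : Type} [TopologicalSpace T] [TopologicalSpace Y]
    (h : IsSimpleTriod T) (e : T ≃ₜ Y) : IsSimpleTriod Y := by
  obtain ⟨γ, h1, h2, h3, h4⟩ := h
  refine ⟨fun i => e ∘ γ i, fun i => ⟨e.continuous.comp (h1 i).1, e.injective.comp (h1 i).2⟩,
    fun i j => congrArg e (h2 i j), fun i j s t hij hst => h3 i j s t hij (e.injective hst),
    fun y => ?_⟩
  obtain ⟨i, s, hs⟩ := h4 (e.symm y)
  exact ⟨i, s, by simp [hs]⟩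

/-- The underlying set of the model triod, legs of length `3`. -/
def triSet : Set (Fin 3 → ℝ) := {x | (∀ i, 0 ≤ x i ∧ x i ≤ 3) ∧ ∀ i j, i ≠ j → x i = 0 ∨ x j = 0}

/-- The model triod. -/
abbrev Tri : Type := triSet

theorem isCompact_triSet : IsCompact triSet := by
  have hb : triSet ⊆ Icc (fun _ => (0 : ℝ)) (fun _ => 3) := fun x hx =>
    ⟨fun i => (hx.1 i).1, fun i => (hx.1 i).2⟩
  have hc : IsClosed triSet := by
    have h1 : IsClosed {x : Fin 3 → ℝ | ∀ i, 0 ≤ x i ∧ x i ≤ 3} := by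
      simp only [Set.ofPred_forall, Set.ofPred_and]
      refine isClosed_iInter fun i => ?_
      exact (isClosed_le continuous_const (continuous_apply i)).inter
        (isClosed_le (continuous_apply i) continuous_const)
    have h2 : IsClosed {x : Fin 3 → ℝ | ∀ i j, i ≠ j → x i = 0 ∨ x j = 0} := by
      simp only [Set.ofPred_forall]
      refine isClosed_iInter fun i => isClosed_iInter fun j => isClosed_iInter fun _ => ?_
      simp only [Set.ofPred_or]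
      exact (isClosed_eq (continuous_apply i) continuous_const).union
        (isClosed_eq (continuous_apply j) continuous_const)
    exact h1.inter h2
  exact isCompact_Icc.of_isClosed_subset hc hb

instance : CompactSpace Tri := isCompact_iff_compactSpace.1 isCompact_triSet

theorem single_mem (i : Fin 3) {t : ℝ} (h0 : 0 ≤ t) (h3 : t ≤ 3) :
    (Pi.single i t : Fin 3 → ℝ) ∈ triSet := by
  refine ⟨fun j => ?_, fun j k hjk => ?_⟩
  · by_cases h : j = i
    · subst h; simp [h0, h3]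
    · simp [Pi.single_eq_of_ne h]
  · by_cases h : j = i
    · right
      subst h
      exact Pi.single_eq_of_ne (Ne.symm hjk) _
    · left
      exact Pi.single_eq_of_ne h _

/-- The point of leg `i` with parameter `t` (clamped to `[0,3]`). -/
noncomputable def leg (i : Fin 3) (t : ℝ) : Tri :=
  ⟨Pi.single i (max 0 (min t 3)), single_mem i (le_max_left _ _) (max_le (by norm_num)
    (min_le_right _ _))⟩

theorem continuous_leg (i : Fin 3) : Continuous (leg i) := by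
  refine Continuous.subtype_mk ?_ _
  exact (continuous_single i).comp (continuous_const.max (continuous_id.min continuous_const))

theorem leg_val (i : Fin 3) {t : ℝ} (h0 : 0 ≤ t) (h3 : t ≤ 3) :
    (leg i t).1 = Pi.single i t := by
  simp only [leg]
  rw [min_eq_left h3, max_eq_right h0]

theorem leg_zero (i j : Fin 3) : leg i 0 = leg j 0 := by
  apply Subtype.ext
  rw [leg_val i le_rfl (by norm_num), leg_val j le_rfl (by norm_num), Pi.single_zero,
    Pi.single_zero]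

theorem exists_leg (x : Tri) : ∃ (i : Fin 3) (t : ℝ), 0 ≤ t ∧ t ≤ 3 ∧ x = leg i t := by
  obtain ⟨x, hx1, hx2⟩ := x
  by_cases h : ∃ i, x i ≠ 0
  · obtain ⟨i, hi⟩ := h
    refine ⟨i, x i, (hx1 i).1, (hx1 i).2, Subtype.ext ?_⟩
    rw [leg_val i (hx1 i).1 (hx1 i).2]
    funext j
    by_cases hj : j = i
    · subst hj; simp
    · rw [Pi.single_eq_of_ne hj]
      rcases hx2 i j (Ne.symm hj) with h | h
      · exact absurd h hi
      · exact h
  · push Not at h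
    refine ⟨0, 0, le_rfl, by norm_num, Subtype.ext ?_⟩
    rw [leg_val 0 le_rfl (by norm_num)]
    funext j
    simp [h j]

theorem isSimpleTriod_tri : IsSimpleTriod Tri := by
  have hr : ∀ s : Icc (0 : ℝ) 1, 0 ≤ 3 * (s : ℝ) ∧ 3 * (s : ℝ) ≤ 3 := fun s =>
    ⟨by have := s.2.1; linarith, by have := s.2.2; linarith⟩
  refine ⟨fun i s => leg i (3 * s), fun i => ⟨?_, ?_⟩, fun i j => ?_, fun i j s t hij hst => ?_,
    fun x => ?_⟩
  · exact (continuous_leg i).comp (continuous_const.mul continuous_subtype_val)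
  · intro s t hst
    have h : (leg i (3 * s)).1 i = (leg i (3 * t)).1 i := by
      have : leg i (3 * s) = leg i (3 * t) := hst
      rw [this]
    rw [leg_val i (hr s).1 (hr s).2, leg_val i (hr t).1 (hr t).2] at h
    simp only [Pi.single_eq_same] at h
    exact Subtype.ext (by linarith)
  · simp only [Set.Icc.coe_zero, mul_zero]
    exact leg_zero i j
  · have h : (leg i (3 * s)).1 = (leg j (3 * t)).1 := by
      have : leg i (3 * s) = leg j (3 * t) := hst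
      rw [this]
    rw [leg_val i (hr s).1 (hr s).2, leg_val j (hr t).1 (hr t).2] at h
    have h1 := congrFun h i
    have h2 := congrFun h j
    rw [Pi.single_eq_same, Pi.single_eq_of_ne hij] at h1
    rw [Pi.single_eq_same, Pi.single_eq_of_ne (Ne.symm hij)] at h2
    exact ⟨Subtype.ext (by simpa using h1), Subtype.ext (by simpa using h2.symm)⟩
  · obtain ⟨i, t, h0, h3, rfl⟩ := exists_leg x
    refine ⟨i, ⟨t / 3, by positivity, by linarith⟩, ?_⟩
    simp only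
    congr 1
    ring

/-- A segment in the product: `x` on leg `a` with parameter `t`, `y` on leg `b` with parameter
`c + d t`, for `t ∈ [u, v]`. -/
noncomputable def seg (a b : Fin 3) (c d u v : ℝ) : Set (Tri × Tri) :=
  (fun t : ℝ => (leg a t, leg b (c + d * t))) '' Icc u v

theorem continuous_segfun (a b : Fin 3) (c d : ℝ) :
    Continuous fun t : ℝ => (leg a t, leg b (c + d * t)) :=
  (continuous_leg a).prodMk ((continuous_leg b).comp (by fun_prop))

theorem isCompact_seg (a b : Fin 3) (c d u v : ℝ) : IsCompact (seg a b c d u v) :=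
  isCompact_Icc.image (continuous_segfun a b c d)

theorem isPreconnected_seg (a b : Fin 3) (c d u v : ℝ) : IsPreconnected (seg a b c d u v) :=
  isPreconnected_Icc.image _ (continuous_segfun a b c d).continuousOn

/-- The connected set of pairs. -/
noncomputable def CC : Set (Tri × Tri) :=
  seg 0 0 0 0 2 3 ∪ seg 0 2 2 (-1) 0 2 ∪ seg 1 2 2 (-1) 0 2 ∪ seg 1 2 0 0 1 3 ∪
    seg 1 0 1 (-1) 0 1 ∪ seg 2 0 1 (-1) 0 1 ∪ seg 2 2 (-1/4) (1/4) 1 3

theorem isClosed_CC : IsClosed CC :=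
  ((((((isCompact_seg _ _ _ _ _ _).union (isCompact_seg _ _ _ _ _ _)).union
    (isCompact_seg _ _ _ _ _ _)).union (isCompact_seg _ _ _ _ _ _)).union
    (isCompact_seg _ _ _ _ _ _)).union (isCompact_seg _ _ _ _ _ _)).union
    (isCompact_seg _ _ _ _ _ _) |>.isClosed

theorem isConnected_CC : IsConnected CC := by
  have m1 : (leg 0 2, leg 0 0) ∈ seg 0 0 0 0 2 3 := ⟨2, by norm_num, by norm_num⟩
  have m1' : (leg 0 2, leg 0 0) ∈ seg 0 2 2 (-1) 0 2 :=
    ⟨2, by norm_num, by norm_num [leg_zero 2 0]⟩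
  have m2 : (leg 0 0, leg 2 2) ∈ seg 0 2 2 (-1) 0 2 := ⟨0, by norm_num, by norm_num⟩
  have m2' : (leg 0 0, leg 2 2) ∈ seg 1 2 2 (-1) 0 2 :=
    ⟨0, by norm_num, by norm_num [leg_zero 1 0]⟩
  have m3 : (leg 1 2, leg 2 0) ∈ seg 1 2 2 (-1) 0 2 := ⟨2, by norm_num, by norm_num⟩
  have m3' : (leg 1 2, leg 2 0) ∈ seg 1 2 0 0 1 3 := ⟨2, by norm_num, by norm_num⟩
  have m4 : (leg 1 1, leg 2 0) ∈ seg 1 2 0 0 1 3 := ⟨1, by norm_num, by norm_num⟩
  have m4' : (leg 1 1, leg 2 0) ∈ seg 1 0 1 (-1) 0 1 :=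
    ⟨1, by norm_num, by norm_num [leg_zero 2 0]⟩
  have m5 : (leg 1 0, leg 0 1) ∈ seg 1 0 1 (-1) 0 1 := ⟨0, by norm_num, by norm_num⟩
  have m5' : (leg 1 0, leg 0 1) ∈ seg 2 0 1 (-1) 0 1 :=
    ⟨0, by norm_num, by norm_num [leg_zero 1 0, leg_zero 2 0]⟩
  have m6 : (leg 2 1, leg 0 0) ∈ seg 2 0 1 (-1) 0 1 := ⟨1, by norm_num, by norm_num⟩
  have m6' : (leg 2 1, leg 0 0) ∈ seg 2 2 (-1/4) (1/4) 1 3 :=
    ⟨1, by norm_num, by norm_num [leg_zero 2 0]⟩
  refine ⟨⟨_, Or.inl (Or.inl (Or.inl (Or.inl (Or.inl (Or.inl m1)))))⟩, ?_⟩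
  have s1 := isPreconnected_seg 0 0 0 0 2 3
  have s2 := IsPreconnected.union _ m1 m1' s1 (isPreconnected_seg 0 2 2 (-1) 0 2)
  have s3 := IsPreconnected.union _ (mem_union_right _ m2) m2' s2 (isPreconnected_seg 1 2 2 (-1) 0 2)
  have s4 := IsPreconnected.union _ (mem_union_right _ m3) m3' s3 (isPreconnected_seg 1 2 0 0 1 3)
  have s5 := IsPreconnected.union _ (mem_union_right _ m4) m4' s4 (isPreconnected_seg 1 0 1 (-1) 0 1)
  have s6 := IsPreconnected.union _ (mem_union_right _ m5) m5' s5 (isPreconnected_seg 2 0 1 (-1) 0 1)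
  exact IsPreconnected.union _ (mem_union_right _ m6) m6' s6 (isPreconnected_seg 2 2 (-1/4) (1/4) 1 3)

/-- Coordinate description of `CC`. -/
def PP (x y : Fin 3 → ℝ) : Prop :=
  (x 1 = 0 ∧ x 2 = 0 ∧ y 0 = 0 ∧ y 1 = 0 ∧ y 2 = 0 ∧ 2 ≤ x 0) ∨
  (x 1 = 0 ∧ x 2 = 0 ∧ y 0 = 0 ∧ y 1 = 0 ∧ y 2 = 2 - x 0 ∧ 0 ≤ x 0 ∧ x 0 ≤ 2) ∨
  (x 0 = 0 ∧ x 2 = 0 ∧ y 0 = 0 ∧ y 1 = 0 ∧ y 2 = 2 - x 1 ∧ 0 ≤ x 1 ∧ x 1 ≤ 2) ∨
  (x 0 = 0 ∧ x 2 = 0 ∧ y 0 = 0 ∧ y 1 = 0 ∧ y 2 = 0 ∧ 1 ≤ x 1) ∨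
  (x 0 = 0 ∧ x 2 = 0 ∧ y 1 = 0 ∧ y 2 = 0 ∧ y 0 = 1 - x 1 ∧ 0 ≤ x 1 ∧ x 1 ≤ 1) ∨
  (x 0 = 0 ∧ x 1 = 0 ∧ y 1 = 0 ∧ y 2 = 0 ∧ y 0 = 1 - x 2 ∧ 0 ≤ x 2 ∧ x 2 ≤ 1) ∨
  (x 0 = 0 ∧ x 1 = 0 ∧ y 0 = 0 ∧ y 1 = 0 ∧ y 2 = -1/4 + 1/4 * x 2 ∧ 1 ≤ x 2 ∧ x 2 ≤ 3)

theorem seg_coord {a b : Fin 3} {c d u v : ℝ} (hu : 0 ≤ u) (hv : v ≤ 3)
    (hc : ∀ t ∈ Icc u v, 0 ≤ c + d * t ∧ c + d * t ≤ 3) {p : Tri × Tri}
    (hp : p ∈ seg a b c d u v) : ∃ t ∈ Icc u v, p.1.1 = Pi.single a t ∧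
      p.2.1 = Pi.single b (c + d * t) := by
  obtain ⟨t, ht, rfl⟩ := hp
  exact ⟨t, ht, leg_val a (hu.trans ht.1) (ht.2.trans hv), leg_val b (hc t ht).1 (hc t ht).2⟩

theorem PP_of_mem {p : Tri × Tri} (hp : p ∈ CC) : PP p.1.1 p.2.1 := by
  unfold PP
  rcases hp with (((((hp | hp) | hp) | hp) | hp) | hp) | hp
  · obtain ⟨t, ht, h1, h2⟩ := seg_coord (by norm_num) (by norm_num)
      (fun t ht => ⟨by norm_num, by norm_num⟩) hp
    left
    rw [h1, h2]
    simp [ht.1]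
  · obtain ⟨t, ht, h1, h2⟩ := seg_coord (by norm_num) (by norm_num)
      (fun t ht => ⟨by linarith [ht.2], by linarith [ht.1]⟩) hp
    right; left
    rw [h1, h2]
    simp [ht.1, ht.2]
    ring
  · obtain ⟨t, ht, h1, h2⟩ := seg_coord (by norm_num) (by norm_num)
      (fun t ht => ⟨by linarith [ht.2], by linarith [ht.1]⟩) hp
    right; right; left
    rw [h1, h2]
    simp [ht.1, ht.2]
    ring
  · obtain ⟨t, ht, h1, h2⟩ := seg_coord (by norm_num) (by norm_num)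
      (fun t ht => ⟨by norm_num, by norm_num⟩) hp
    right; right; right; left
    rw [h1, h2]
    simp [ht.1]
  · obtain ⟨t, ht, h1, h2⟩ := seg_coord (by norm_num) (by norm_num)
      (fun t ht => ⟨by linarith [ht.2], by linarith [ht.1]⟩) hp
    right; right; right; right; left
    rw [h1, h2]
    simp [ht.1, ht.2]
    ring
  · obtain ⟨t, ht, h1, h2⟩ := seg_coord (by norm_num) (by norm_num)
      (fun t ht => ⟨by linarith [ht.2], by linarith [ht.1]⟩) hp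
    right; right; right; right; right; left
    rw [h1, h2]
    simp [ht.1, ht.2]
    ring
  · obtain ⟨t, ht, h1, h2⟩ := seg_coord (by norm_num) (by norm_num)
      (fun t ht => ⟨by linarith [ht.1], by linarith [ht.2]⟩) hp
    right; right; right; right; right; right
    rw [h1, h2]
    simp [ht.1, ht.2]

theorem PP_antisymm (x y : Fin 3 → ℝ) (h1 : PP x y) (h2 : PP y x) : False := by
  unfold PP at h1 h2
  rcases h1 with h | h | h | h | h | h | h <;> rcases h2 with k | k | k | k | k | k | k <;>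
  · obtain ⟨_, _, _, _, _, _⟩ := h
    obtain ⟨_, _, _, _, _, _⟩ := k
    linarith

theorem fst_CC : Prod.fst '' CC = univ := by
  rw [eq_univ_iff_forall]
  intro x
  obtain ⟨i, t, h0, h3, rfl⟩ := exists_leg x
  fin_cases i
  · show leg 0 t ∈ _
    rcases le_total t 2 with h | h
    · exact ⟨_, Or.inl (Or.inl (Or.inl (Or.inl (Or.inl (Or.inr ⟨t, ⟨h0, h⟩, rfl⟩))))), rfl⟩
    · exact ⟨_, Or.inl (Or.inl (Or.inl (Or.inl (Or.inl (Or.inl ⟨t, ⟨h, h3⟩, rfl⟩))))), rfl⟩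
  · show leg 1 t ∈ _
    rcases le_total t 2 with h | h
    · exact ⟨_, Or.inl (Or.inl (Or.inl (Or.inl (Or.inr ⟨t, ⟨h0, h⟩, rfl⟩)))), rfl⟩
    · exact ⟨_, Or.inl (Or.inl (Or.inl (Or.inr ⟨t, ⟨by linarith, h3⟩, rfl⟩))), rfl⟩
  · show leg 2 t ∈ _
    rcases le_total t 1 with h | h
    · exact ⟨_, Or.inl (Or.inr ⟨t, ⟨h0, h⟩, rfl⟩), rfl⟩
    · exact ⟨_, Or.inr ⟨t, ⟨h, h3⟩, rfl⟩, rfl⟩

theorem snd_CC : Prod.snd '' CC ≠ univ := by
  intro h
  obtain ⟨p, hp, hp2⟩ : leg 1 3 ∈ Prod.snd '' CC := by rw [h]; trivial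
  have h1 := PP_of_mem hp
  have h2 : p.2.1 1 = 3 := by
    rw [hp2, leg_val 1 (by norm_num) le_rfl]; simp
  unfold PP at h1
  rcases h1 with h | h | h | h | h | h | h <;>
  · obtain ⟨_, _, _, _, _, _⟩ := h
    linarith

/-- There is a simple triod, with a compatible metric, with `σ* < σ₀*`. -/
theorem triod_result : ∃ (T : Type) (_ : MetricSpace T), IsSimpleTriod T ∧
    surjSpan T < surjSemispan T := by
  obtain ⟨Y, m, e, h⟩ := exists_metric CC isClosed_CC isConnected_CC fst_CC snd_CC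
    (fun x y h h' => PP_antisymm _ _ (PP_of_mem h) (PP_of_mem h'))
  exact ⟨Y, m, isSimpleTriod_tri.of_homeomorph e, h⟩

end Pool.Agent.Q148.Span
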